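import Pool.Agent.Helper89.A8.Stmts
import Pool.Agent.Helper89.A8.GTools

/-!
# Block G12 of project A8: `[Kv, Kd] = 1`

Statement by helper89; proof: helper7.
-/

set_option autoImplicit false

namespace Pool.Agent.A8

open Matrix
open scoped commutatorElement

section
variable {G : Type} [Group G] {π : G →* Gam} {X Y : Subgroup G}
variable {M : Type*} [AddCommGroup M] [Module RG M] {χ : G → M}

theorem cv_mem {x y : G} (hx : x ∈ X) (hy : y ∈ Y) : ⁅x, y⁆ ∈ ⁅X, Y⁆ :=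
  Subgroup.commutator_mem_commutator hx hy

theorem cv_normal (hX : X.Normal) (hY : Y.Normal) : (⁅X, Y⁆ : Subgroup G).Normal := by
  have := hX
  have := hY
  infer_instance

theorem cv_mul_left (hX : X.Normal) (hY : Y.Normal) (hXK : X ≤ π.ker) (h : HomOn π ⁅X, Y⁆ χ)
    {x x' y : G} (hx : x ∈ X) (hx' : x' ∈ X) (hy : y ∈ Y) :
    χ ⁅x * x', y⁆ = χ ⁅x, y⁆ + χ ⁅x', y⁆ := by
  have e : ⁅x * x', y⁆ = (x * ⁅x', y⁆ * x⁻¹) * ⁅x, y⁆ := by
    simp only [commutatorElement_def]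
    group
  have hn := cv_normal hX hY
  rw [e, h.mul _ (hn.conj_mem _ (cv_mem hx' hy) x) _ (cv_mem hx hy),
    h.conj_ker (hXK hx) (cv_mem hx' hy), add_comm]

theorem cv_conj (h : HomOn π ⁅X, Y⁆ χ) (g : G) {x y : G} (hx : x ∈ X) (hy : y ∈ Y) :
    χ ⁅g * x * g⁻¹, g * y * g⁻¹⁆ = act (π g) (χ ⁅x, y⁆) := by
  have e : ⁅g * x * g⁻¹, g * y * g⁻¹⁆ = g * ⁅x, y⁆ * g⁻¹ := by
    simp only [commutatorElement_def]
    group
  rw [e, h.conj g _ (cv_mem hx hy)]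

theorem cv_swap (h : HomOn π ⁅X, Y⁆ χ) {x y : G} (hx : x ∈ X) (hy : y ∈ Y) :
    χ ⁅y, x⁆ = χ ⁅x, y⁆ := by
  rw [← commutatorElement_inv, h.map_inv (cv_mem hx hy)]

theorem cv_hom_swap (h : HomOn π ⁅X, Y⁆ χ) : HomOn π ⁅Y, X⁆ χ := by
  rw [Subgroup.commutator_comm]
  exact h

theorem cv_mul_right (hX : X.Normal) (hY : Y.Normal) (hYK : Y ≤ π.ker) (h : HomOn π ⁅X, Y⁆ χ)
    {x y y' : G} (hx : x ∈ X) (hy : y ∈ Y) (hy' : y' ∈ Y) :
    χ ⁅x, y * y'⁆ = χ ⁅x, y⁆ + χ ⁅x, y'⁆ := by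
  rw [← cv_swap h hx (Y.mul_mem hy hy'), cv_mul_left hY hX hYK (cv_hom_swap h) hy hy' hx,
    cv_swap h hx hy, cv_swap h hx hy']

/-- the left kernel of the commutator pairing -/
def cvT (hX : X.Normal) (hY : Y.Normal) (hXK : X ≤ π.ker) (h : HomOn π ⁅X, Y⁆ χ) :
    Subgroup G where
  carrier := {x | x ∈ X ∧ ∀ y ∈ Y, χ ⁅x, y⁆ = 0}
  one_mem' := ⟨X.one_mem, fun y _ => by rw [commutatorElement_one_left, h.map_one]⟩
  mul_mem' := by
    rintro a b ⟨ha, ha'⟩ ⟨hb, hb'⟩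
    exact ⟨X.mul_mem ha hb, fun y hy => by
      rw [cv_mul_left hX hY hXK h ha hb hy, ha' y hy, hb' y hy, add_zero]⟩
  inv_mem' := by
    rintro a ⟨ha, ha'⟩
    refine ⟨X.inv_mem ha, fun y hy => ?_⟩
    have h1 := cv_mul_left hX hY hXK h ha (X.inv_mem ha) hy
    rw [mul_inv_cancel, commutatorElement_one_left, h.map_one, ha' y hy, zero_add] at h1
    exact h1.symm

theorem cvT_normal (hX : X.Normal) (hY : Y.Normal) (hXK : X ≤ π.ker) (h : HomOn π ⁅X, Y⁆ χ) :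
    (cvT hX hY hXK h).Normal := by
  constructor
  rintro x ⟨hx, hx'⟩ g
  refine ⟨hX.conj_mem x hx g, fun y hy => ?_⟩
  have h1 := hx' _ (hY.conj_mem y hy g⁻¹)
  rw [inv_inv] at h1
  have h2 := cv_conj h g hx (hY.conj_mem y hy g⁻¹)
  rw [inv_inv, h1, act_zero] at h2
  have e : g * (g⁻¹ * y * g) * g⁻¹ = y := by group
  rw [e] at h2
  exact h2

/-- the minimal local subgroup on which the pairing is nonzero -/
theorem cv_min [Finite G] (h1 : S_COV) (hπ : Cfg π) (hX : X.Normal) (hY : Y.Normal)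
    (hXK : X ≤ π.ker) (hYK : Y ≤ π.ker) (h : HomOn π ⁅X, Y⁆ χ)
    (hne : ∃ x ∈ X, ∃ y ∈ Y, χ ⁅x, y⁆ ≠ 0) :
    ∃ (D : Subgroup G) (a : Ty) (φ : G → Md a), D ≤ X ∧ Loc π D a φ ∧
      (∀ x ∈ D, φ x = 0 → ∀ y ∈ Y, χ ⁅x, y⁆ = 0) ∧ ∃ x ∈ D, ∃ y ∈ Y, χ ⁅x, y⁆ ≠ 0 := by
  have hle : ¬ X ≤ cvT hX hY hXK h := by
    intro hc
    obtain ⟨x, hx, y, hy, hxy⟩ := hne
    exact hxy ((hc hx).2 y hy)
  obtain ⟨D, -, hDX, hDT, -, hD⟩ := h1 G π hπ X (cvT hX hY hXK h) hX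
    (cvT_normal hX hY hXK h) hXK hle
  have hne' : ∃ x ∈ D, ∃ y ∈ Y, χ ⁅x, y⁆ ≠ 0 := by
    by_contra hc
    push Not at hc
    exact hDT fun x hx => ⟨hDX hx, fun y hy => hc x hx y hy⟩
  rcases hD with ⟨a, φ, hL, hφ⟩ | hZ
  · exact ⟨D, a, φ, hDX, hL, fun x hx hx0 y hy => ((hφ x hx).1 hx0).2 y hy, hne'⟩
  · exfalso
    obtain ⟨x, hx, y, hy, hxy⟩ := hne'
    apply hxy
    have h2 := (mem_ZK.1 (hZ hx)).1 y (hYK hy)
    have h3 : ⁅x, y⁆ = 1 := by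
      rw [commutatorElement_eq_one_iff_mul_comm]
      exact h2.symm
    rw [h3, h.map_one]

end

section
variable {G : Type} [Group G] {π : G →* Gam}

theorem cv_type [Finite G] (h1 : S_COV) (h3 : S_STD2) (h4 : S_UQ) (hπ : Cfg π)
    {X W : Subgroup G} {w c : Ty} {φW : G → Md w} (hW : Loc π W w φW) (hX : X.Normal)
    (hXK : X ≤ π.ker) {χ : G → Md c} (h : HomOn π ⁅X, W⁆ χ)
    (hne : ∃ x ∈ X, ∃ y ∈ W, χ ⁅x, y⁆ ≠ 0) :
    ∃ (D : Subgroup G) (a : Ty) (φ : G → Md a) (m : Md w → Md a → Md c), D ≤ X ∧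
      Loc π D a φ ∧ Std3 w a c m ∧ ∃ x ∈ D, ∃ y ∈ W, χ ⁅x, y⁆ ≠ 0 := by
  obtain ⟨D, a, φ, hDX, hD, hker, hDne⟩ := cv_min h1 hπ hX hW.normal hXK hW.le h hne
  have hD' : HomOn π ⁅D, W⁆ χ := h.mono (Subgroup.commutator_mono hDX le_rfl)
  rcases h3 G π hπ W D a φ hW.normal hW.le hD c χ (cv_hom_swap hD')
    (fun y hy x hx hx0 => by rw [cv_swap hD' hx hy]; exact hker x hx hx0 y hy) with h5 | h5
  · exfalso
    obtain ⟨x, hx, y, hy, hxy⟩ := hDne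
    apply hxy
    rw [← cv_swap hD' hx hy]
    exact h5 y hy x hx
  · obtain ⟨b, m, θ, hm, hθ, ⟨z, hz, hz0⟩, -⟩ := h5
    rcases h4 G π hπ W w φW hW b θ hθ with h6 | ⟨h6, -⟩
    · exact absurd (h6 z hz) hz0
    · subst h6
      exact ⟨D, a, φ, m, hDX, hD, hm, hDne⟩

/-- dichotomy for the two factors -/
theorem cv_types {a b c : Ty} {m : Md .d → Md a → Md c} {m' : Md .v → Md b → Md c}
    (h : Std3 .d a c m) (h' : Std3 .v b c m') : c = .l ∧ a = .d ∧ b = .v := by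
  cases h <;> cases h'
  exact ⟨rfl, rfl, rfl⟩

theorem cv_nol {b : Ty} {m : Md .l → Md b → Md .l} (h : Std3 .l b .l m) : False := by
  cases h

theorem cv_std_d [Finite G] (h3 : S_STD2) (hπ : Cfg π) {W B : Subgroup G} {φ : G → Md .d}
    (hW : W.Normal) (hWK : W ≤ π.ker) (hB : Loc π B .d φ) {χ : G → Md .l}
    (h : HomOn π ⁅W, B⁆ χ) (hker : ∀ w ∈ W, ∀ y ∈ B, φ y = 0 → χ ⁅w, y⁆ = 0)
    (hne : ∃ w ∈ W, ∃ y ∈ B, χ ⁅w, y⁆ ≠ 0) :
    ∃ θ : G → Md .d, HomOn π W θ ∧ (∃ w ∈ W, θ w ≠ 0) ∧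
      ∀ w ∈ W, ∀ y ∈ B, χ ⁅w, y⁆ = mdd (θ w) (φ y) := by
  rcases h3 G π hπ W B .d φ hW hWK hB .l χ h hker with h5 | h5
  · exfalso
    obtain ⟨w, hw, y, hy, hwy⟩ := hne
    exact hwy (h5 w hw y hy)
  · obtain ⟨a, m, θ, hm, hθ, hθ0, hf⟩ := h5
    cases hm
    exact ⟨θ, hθ, hθ0, hf⟩

theorem cv_std_v [Finite G] (h3 : S_STD2) (hπ : Cfg π) {W B : Subgroup G} {φ : G → Md .v}
    (hW : W.Normal) (hWK : W ≤ π.ker) (hB : Loc π B .v φ) {χ : G → Md .l}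
    (h : HomOn π ⁅W, B⁆ χ) (hker : ∀ w ∈ W, ∀ y ∈ B, φ y = 0 → χ ⁅w, y⁆ = 0)
    (hne : ∃ w ∈ W, ∃ y ∈ B, χ ⁅w, y⁆ ≠ 0) :
    ∃ θ : G → Md .v, HomOn π W θ ∧ (∃ w ∈ W, θ w ≠ 0) ∧
      ∀ w ∈ W, ∀ y ∈ B, χ ⁅w, y⁆ = mvv (θ w) (φ y) := by
  rcases h3 G π hπ W B .v φ hW hWK hB .l χ h hker with h5 | h5
  · exfalso
    obtain ⟨w, hw, y, hy, hwy⟩ := hne
    exact hwy (h5 w hw y hy)
  · obtain ⟨a, m, θ, hm, hθ, hθ0, hf⟩ := h5
    cases hm
    exact ⟨θ, hθ, hθ0, hf⟩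

/-- a homomorphism to a small module which is nonzero is onto -/
theorem cv_onto (h8 : S_SIM) {X : Subgroup G} {a : Ty} {θ : G → Md a} (hπ : Function.Surjective π)
    (hX : X.Normal) (h : HomOn π X θ) (hne : ∃ x ∈ X, θ x ≠ 0) (m : Md a) :
    ∃ x ∈ X, θ x = m := by
  let S : AddSubgroup (Md a) :=
    { carrier := {m | ∃ x ∈ X, θ x = m}
      zero_mem' := ⟨1, X.one_mem, h.map_one⟩
      add_mem' := by
        rintro _ _ ⟨x, hx, rfl⟩ ⟨y, hy, rfl⟩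
        exact ⟨x * y, X.mul_mem hx hy, h.mul x hx y hy⟩
      neg_mem' := by
        rintro _ ⟨x, hx, rfl⟩
        exact ⟨x, hx, (neg_eq _).symm⟩ }
  have hS : ∀ g, ∀ m ∈ S, act g m ∈ S := by
    rintro g _ ⟨x, hx, rfl⟩
    obtain ⟨k, rfl⟩ := hπ g
    exact ⟨k * x * k⁻¹, hX.conj_mem x hx k, h.conj k x hx⟩
  have := h8 a
  rcases eq_bot_or_eq_top (mkSub S hS) with h1 | h1
  · exfalso
    obtain ⟨x, hx, hx0⟩ := hne
    have h2 : θ x ∈ mkSub S hS := ⟨x, hx, rfl⟩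
    rw [h1, Submodule.mem_bot] at h2
    exact hx0 h2
  · have h2 : m ∈ mkSub S hS := by rw [h1]; trivial
    exact h2

/-- descend a homomorphism along a surjective homomorphism with smaller kernel -/
theorem cv_desc {X X' : Subgroup G} {M N : Type} [AddCommGroup M] [Module RG M]
    [AddCommGroup N] [Module RG N] (hπ : Function.Surjective π) (hX : X.Normal)
    {φ : G → M} {ψ : G → N} (h : HomOn π X φ) (hs : ∀ m, ∃ x ∈ X, φ x = m)
    (h' : HomOn π X' ψ) (hXX : X ≤ X') (hk : ∀ x ∈ X, φ x = 0 → ψ x = 0) :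
    ∃ q : M →ₗ[RG] N, ∀ x ∈ X, q (φ x) = ψ x := by
  have hψ := h'.mono hXX
  have hwd : ∀ x ∈ X, ∀ y ∈ X, φ x = φ y → ψ x = ψ y := by
    intro x hx y hy hxy
    have h1 := hk _ (X.mul_mem hx (X.inv_mem hy)) (by
      rw [h.map_mul_inv hx hy, hxy, add_self])
    rw [hψ.map_mul_inv hx hy] at h1
    have h2 := eq_neg_of_add_eq_zero_left h1
    rw [h2, neg_eq]
  choose s hs1 hs2 using hs
  let f : M →+ N := AddMonoidHom.mk' (fun m => ψ (s m)) (by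
    intro a b
    change ψ (s (a + b)) = ψ (s a) + ψ (s b)
    rw [← hψ.mul _ (hs1 a) _ (hs1 b)]
    refine hwd _ (hs1 _) _ (X.mul_mem (hs1 a) (hs1 b)) ?_
    rw [h.mul _ (hs1 a) _ (hs1 b), hs2, hs2, hs2])
  have hf : ∀ m, f m = ψ (s m) := fun m => rfl
  refine ⟨mkLin f ?_, ?_⟩
  · intro g m
    obtain ⟨k, rfl⟩ := hπ g
    rw [hf, hf, ← hψ.conj k _ (hs1 m)]
    refine hwd _ (hs1 _) _ (hX.conj_mem _ (hs1 m) k) ?_
    rw [h.conj k _ (hs1 m), hs2, hs2]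
  · intro x hx
    rw [mkLin_apply, hf]
    exact hwd _ (hs1 _) _ hx (hs2 _)

/-- the linear algebra of step 4 -/
theorem cv_lin (v : MV) (hv : v ≠ 0) (η : MD) (h : ∀ ξ : MD, ∃ u : MV, mdd η ξ + mvv u v = 0) :
    η = 0 := by
  have key : ∀ ξ : MD, ev ξ v • (η : V4) + ev η v • (ξ : V4) = 0 := by
    intro ξ
    obtain ⟨u, hu⟩ := h ξ
    have e1 : lv (wdgD η ξ + wdg u v) v = 0 := by
      have : wdgD η ξ + wdg u v = 0 := hu
      rw [this]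
      have h0 := lv_add_left 0 0 v
      rw [add_zero] at h0
      exact left_eq_add.1 h0
    rw [lv_add_left, lv_wdgD, wdg_comm u v, lv_wdg_self, add_zero] at e1
    exact e1
  by_contra hη
  obtain ⟨i, hi⟩ : ∃ i, v i ≠ 0 := by
    by_contra hc
    push Not at hc
    exact hv (funext hc)
  have hvi : v i = 1 := by
    have : ∀ a : ZMod 2, a ≠ 0 → a = 1 := by decide
    exact this _ hi
  have h01 : ∀ a : ZMod 2, a = 0 ∨ a = 1 := by decide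
  -- the functional `ξ₀ = e_i*` has value 1 on `v`
  let ξ₀ : V4 := Pi.single i 1
  have hξ₀ : ev ξ₀ v = 1 := by
    change (Pi.single i 1 : V4) ⬝ᵥ (v : V4) = 1
    rw [single_dotProduct, hvi, one_mul]
  rcases h01 (ev η v) with h0 | h0
  · have := key ξ₀
    rw [hξ₀, h0, zero_smul, one_smul, add_zero] at this
    exact hη this
  · -- `η = ξ` for all `ξ` with value 1
    have hall : ∀ ξ : V4, ev ξ v = 1 → ξ = η := by
      intro ξ hξ
      have := key ξ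
      rw [hξ, h0, one_smul, one_smul] at this
      have h2 : (η : V4) = -ξ := eq_neg_of_add_eq_zero_left this
      rw [h2]
      funext j
      have : ∀ a : ZMod 2, a = -a := by decide
      exact this _
    -- a nonzero functional vanishing on `v`
    obtain ⟨ζ, hζ0, hζ⟩ : ∃ ζ : V4, ζ ≠ 0 ∧ ev ζ v = 0 := by
      have : ∀ v : Fin 4 → ZMod 2, ∃ ζ : Fin 4 → ZMod 2, ζ ≠ 0 ∧ ζ ⬝ᵥ v = 0 := by decide +kernel
      exact this v
    have h3 := hall (ξ₀ + ζ) (by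
      change (ξ₀ + ζ) ⬝ᵥ (v : V4) = 1
      rw [add_dotProduct]
      change ev ξ₀ v + ev ζ v = 1
      rw [hξ₀, hζ, add_zero])
    have h4 := hall ξ₀ hξ₀
    rw [← h4] at h3
    exact hζ0 (add_eq_left.1 h3)

theorem cv_pair [Finite G] (h1 : S_COV) (h2 : S_TB) (h3 : S_STD2) (h4 : S_UQ) (h5 : S_PAIR)
    (h6 : S_L2M) (h8 : S_SIM) (hπ : Cfg π) : ∀ (n : ℕ) (R B : Subgroup G) (φR : G → Md .v)
    (φB : G → Md .d), Loc π R .v φR → Loc π B .d φB → Nat.card R + Nat.card B = n →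
    ⁅R, B⁆ = ⊥ := by
  intro n
  induction n using Nat.strong_induction_on with
  | _ n ih =>
  intro R B φR φB hR hB hn
  by_contra hRB
  have hRn := hR.normal
  have hBn := hB.normal
  obtain ⟨c, χ, hχ, -, hχ0⟩ := h2 G π hπ R B ⊥ hRn hBn inferInstance hR.le hB.le
    (fun h => hRB (le_bot_iff.1 h))
  have hχ' := cv_hom_swap hχ
  have hχ0' : ∃ y ∈ B, ∃ x ∈ R, χ ⁅y, x⁆ ≠ 0 := by
    obtain ⟨x, hx, y, hy, hxy⟩ := hχ0
    exact ⟨y, hy, x, hx, by rwa [cv_swap hχ hx hy]⟩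
  -- Step 1
  obtain ⟨D, a, φD, mD, hDR, hD, hmD, hDne⟩ := cv_type h1 h3 h4 hπ hB hRn hR.le hχ hχ0
  obtain ⟨D', b, φD', mD', hDB, hD', hmD', hDne'⟩ :=
    cv_type h1 h3 h4 hπ hR hBn hB.le hχ' hχ0'
  obtain ⟨rfl, rfl, rfl⟩ := cv_types hmD hmD'
  -- the kernels
  have hR1n := hR.toHomOn.kerG_normal hRn
  have hB1n := hB.toHomOn.kerG_normal hBn
  have hR1R := hR.toHomOn.kerG_le
  have hB1B := hB.toHomOn.kerG_le
  have hDR1 : D ≤ hR.toHomOn.kerG := by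
    intro x hx
    refine ⟨hDR hx, ?_⟩
    by_contra hc
    have he := hR.top D hD.normal hDR ⟨x, hx, hc⟩
    subst he
    rcases h4 G π hπ D .v φR hR .d φD hD.toHomOn with h7 | ⟨h7, -⟩
    · obtain ⟨y, hy, hy0⟩ := hD.surj (![1, 0, 0, 0] : Fin 4 → ZMod 2)
      have h9 := h7 y hy
      rw [hy0] at h9
      exact absurd (congrFun h9 0) (by decide)
    · cases h7
  have hDB1 : D' ≤ hB.toHomOn.kerG := by
    intro x hx
    refine ⟨hDB hx, ?_⟩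
    by_contra hc
    have he := hB.top D' hD'.normal hDB ⟨x, hx, hc⟩
    subst he
    rcases h4 G π hπ D' .d φB hB .v φD' hD'.toHomOn with h7 | ⟨h7, -⟩
    · obtain ⟨y, hy, hy0⟩ := hD'.surj (![1, 0, 0, 0] : Fin 4 → ZMod 2)
      have h9 := h7 y hy
      rw [hy0] at h9
      exact absurd (congrFun h9 0) (by decide)
    · cases h7
  have hRlt : hR.toHomOn.kerG < R := by
    refine lt_of_le_of_ne hR1R ?_
    intro he
    obtain ⟨y, hy, hy0⟩ := hR.surj (![1, 0, 0, 0] : Fin 4 → ZMod 2)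
    rw [← he] at hy
    have h9 := hy.2
    rw [hy0] at h9
    exact absurd (congrFun h9 0) (by decide)
  have hBlt : hB.toHomOn.kerG < B := by
    refine lt_of_le_of_ne hB1B ?_
    intro he
    obtain ⟨y, hy, hy0⟩ := hB.surj (![1, 0, 0, 0] : Fin 4 → ZMod 2)
    rw [← he] at hy
    have h9 := hy.2
    rw [hy0] at h9
    exact absurd (congrFun h9 0) (by decide)
  -- Step 2
  have step2 : ∀ x ∈ hR.toHomOn.kerG, ∀ y ∈ hB.toHomOn.kerG, χ ⁅x, y⁆ = 0 := by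
    by_contra hc
    push Not at hc
    have hχ1 : HomOn π ⁅hR.toHomOn.kerG, hB.toHomOn.kerG⁆ χ :=
      hχ.mono (Subgroup.commutator_mono hR1R hB1B)
    obtain ⟨E, e, φE, hER, hE, -, hEne⟩ := cv_min h1 hπ hR1n hB1n (hR1R.trans hR.le)
      (hB1B.trans hB.le) hχ1 hc
    have hχ2 : HomOn π ⁅E, hB.toHomOn.kerG⁆ χ := hχ1.mono (Subgroup.commutator_mono hER le_rfl)
    have hEne' : ∃ y ∈ hB.toHomOn.kerG, ∃ x ∈ E, χ ⁅y, x⁆ ≠ 0 := by
      obtain ⟨x, hx, y, hy, hxy⟩ := hEne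
      exact ⟨y, hy, x, hx, by rwa [cv_swap hχ2 hx hy]⟩
    obtain ⟨F, f, φF, hFB, hF, -, hFne⟩ := cv_min h1 hπ hB1n hE.normal (hB1B.trans hB.le)
      hE.le (cv_hom_swap hχ2) hEne'
    have hcE : Nat.card E < Nat.card R := by
      have h7 : Nat.card E ≤ Nat.card hR.toHomOn.kerG := Subgroup.card_le_of_le hER
      have h9 : Nat.card hR.toHomOn.kerG < Nat.card R := by
        refine lt_of_le_of_ne (Subgroup.card_le_of_le hR1R) fun h => ?_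
        exact hRlt.ne (Subgroup.eq_of_le_of_card_ge hR1R h.ge)
      omega
    have hcF : Nat.card F < Nat.card B := by
      have h7 : Nat.card F ≤ Nat.card hB.toHomOn.kerG := Subgroup.card_le_of_le hFB
      have h9 : Nat.card hB.toHomOn.kerG < Nat.card B := by
        refine lt_of_le_of_ne (Subgroup.card_le_of_le hB1B) fun h => ?_
        exact hBlt.ne (Subgroup.eq_of_le_of_card_ge hB1B h.ge)
      omega
    obtain ⟨y, hy, x, hx, hyx⟩ := hFne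
    have hxB : x ∈ R := hR1R (hER hx)
    have hyB : y ∈ B := hB1B (hFB hy)
    -- no commuting
    have hno : ⁅y, x⁆ ≠ 1 := by
      intro h
      rw [h] at hyx
      exact hyx hχ.map_one
    have hno' : ⁅x, y⁆ ≠ 1 := by
      intro h
      apply hno
      rw [← commutatorElement_inv, h, inv_one]
    cases e with
    | v =>
      have h7 := ih _ (by omega) E B φE φB hE hB rfl
      have h9 : ⁅x, y⁆ ∈ ⁅E, B⁆ := cv_mem hx hyB
      rw [h7, Subgroup.mem_bot] at h9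
      exact hno' h9
    | l =>
      have hχ3 : HomOn π ⁅B, E⁆ χ :=
        hχ'.mono (Subgroup.commutator_mono le_rfl (hER.trans hR1R))
      obtain ⟨F', f', φF', m', -, -, hm', -⟩ := cv_type h1 h3 h4 hπ hE hBn hB.le hχ3
        ⟨y, hyB, x, hx, hyx⟩
      exact cv_nol hm'
    | d =>
      cases f with
      | d =>
        have h7 := ih _ (by omega) R F φR φF hR hF rfl
        have h9 : ⁅x, y⁆ ∈ ⁅R, F⁆ := cv_mem hxB hy
        rw [h7, Subgroup.mem_bot] at h9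
        exact hno' h9
      | l =>
        have hχ3 : HomOn π ⁅R, F⁆ χ :=
          hχ.mono (Subgroup.commutator_mono le_rfl (hFB.trans hB1B))
        obtain ⟨F', f', φF', m', -, -, hm', -⟩ := cv_type h1 h3 h4 hπ hF hRn hR.le hχ3
          ⟨x, hxB, y, hy, by rwa [← cv_swap hχ hxB hyB]⟩
        exact cv_nol hm'
      | v =>
        have h7 := ih _ (by omega) F E φF φE hF hE rfl
        have h9 : ⁅y, x⁆ ∈ ⁅F, E⁆ := cv_mem hy hx
        rw [h7, Subgroup.mem_bot] at h9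
        exact hno h9
  -- Step 3
  have hχR1 : HomOn π ⁅hR.toHomOn.kerG, B⁆ χ := hχ.mono (Subgroup.commutator_mono hR1R le_rfl)
  have hχB1 : HomOn π ⁅hB.toHomOn.kerG, R⁆ χ := hχ'.mono (Subgroup.commutator_mono hB1B le_rfl)
  obtain ⟨θ, hθ, hθ0, hθf⟩ := cv_std_d h3 hπ hR1n (hR1R.trans hR.le) hB hχR1
    (fun x hx y hy hy0 => step2 x hx y ⟨hy, hy0⟩) (by
      obtain ⟨x, hx, y, hy, hxy⟩ := hDne
      exact ⟨x, hDR1 hx, y, hy, hxy⟩)
  obtain ⟨ψ, hψ, hψ0, hψf⟩ := cv_std_v h3 hπ hB1n (hB1B.trans hB.le) hR hχB1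
    (fun y hy x hx hx0 => by
      rw [cv_swap hχ hx (hB1B hy)]
      exact step2 x ⟨hx, hx0⟩ y hy) (by
      obtain ⟨y, hy, x, hx, hxy⟩ := hDne'
      exact ⟨y, hDB1 hy, x, hx, hxy⟩)
  have hθs := cv_onto h8 hπ.surj hR1n hθ hθ0
  have hψs := cv_onto h8 hπ.surj hB1n hψ hψ0
  -- Step 4
  have hcomR : ∀ x ∈ R, ∀ k ∈ π.ker, ⁅k, x⁆ ∈ hR.toHomOn.kerG := by
    intro x hx k hk
    refine ⟨?_, ?_⟩
    · rw [commutatorElement_def]
      exact R.mul_mem (hRn.conj_mem x hx k) (R.inv_mem hx)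
    · rw [hR.toHomOn.comm hRn k hx, MonoidHom.mem_ker.1 hk, act_one, add_self]
  have hcomB : ∀ x ∈ B, ∀ k ∈ π.ker, ⁅k, x⁆ ∈ hB.toHomOn.kerG := by
    intro x hx k hk
    refine ⟨?_, ?_⟩
    · rw [commutatorElement_def]
      exact B.mul_mem (hBn.conj_mem x hx k) (B.inv_mem hx)
    · rw [hB.toHomOn.comm hBn k hx, MonoidHom.mem_ker.1 hk, act_one, add_self]
  have step4 : ∀ x ∈ R, ∀ k ∈ π.ker, θ ⁅k, x⁆ = 0 := by
    intro x hx k hk
    by_cases hv : φR x = 0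
    · rw [hθ.comm hR1n k ⟨hx, hv⟩, MonoidHom.mem_ker.1 hk, act_one, add_self]
    · refine cv_lin (φR x) hv _ fun ξ => ?_
      obtain ⟨y, hy, rfl⟩ := hB.surj ξ
      refine ⟨ψ ⁅k, y⁆, ?_⟩
      have hx' := hcomR x hx k hk
      have hy' := hcomB y hy k hk
      have e1 := cv_conj hχ k hx hy
      rw [MonoidHom.mem_ker.1 hk, act_one] at e1
      have ex : k * x * k⁻¹ = ⁅k, x⁆ * x := by rw [commutatorElement_def]; group
      have ey : k * y * k⁻¹ = ⁅k, y⁆ * y := by rw [commutatorElement_def]; group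
      rw [ex, ey, cv_mul_left hRn hBn hR.le hχ (hR1R hx') hx (B.mul_mem (hB1B hy') hy),
        cv_mul_right hRn hBn hB.le hχ (hR1R hx') (hB1B hy') hy,
        cv_mul_right hRn hBn hB.le hχ hx (hB1B hy') hy, step2 _ hx' _ hy', zero_add,
        hθf _ hx' y hy, ← cv_swap hχ hx (hB1B hy'), hψf _ hy' x hx, ← add_assoc] at e1
      exact add_eq_right.1 e1
  have hK : ∀ x ∈ R, ∀ y ∈ B, ∀ k ∈ π.ker, χ ⁅k * x * k⁻¹, y⁆ = χ ⁅x, y⁆ := by
    intro x hx y hy k hk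
    have hx' := hcomR x hx k hk
    have ex : k * x * k⁻¹ = ⁅k, x⁆ * x := by rw [commutatorElement_def]; group
    rw [ex, cv_mul_left hRn hBn hR.le hχ (hR1R hx') hx hy, hθf _ hx' y hy, step4 x hx k hk]
    have h0 : mdd 0 (φB y) = 0 := by
      have h7 : mdd (0 + 0) (φB y) = mdd 0 (φB y) + mdd 0 (φB y) := wdgD_add_left _ _ _
      rw [add_zero] at h7
      exact left_eq_add.1 h7
    rw [h0, zero_add]
  -- Step 5
  obtain ⟨Xb, Yb, i1, i2, i3, i4, i5, i6, φ, ψ', p, hφ, hφs, hψ', hψs', hp, hAdm, hPL, hPR, -, -⟩ :=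
    h5 G π hπ R B hRn hBn hR.le hB.le ML χ hχ hK
  have hφne : ∃ x ∈ R, φ x ≠ 0 := by
    obtain ⟨x, hx, y, hy, hxy⟩ := hχ0
    refine ⟨x, hx, fun h0 => hxy ?_⟩
    rw [← hp x hx y hy, h0, map_zero]
    rfl
  have hψne : ∃ y ∈ B, ψ' y ≠ 0 := by
    obtain ⟨x, hx, y, hy, hxy⟩ := hχ0
    refine ⟨y, hy, fun h0 => hxy ?_⟩
    rw [← hp x hx y hy, h0, map_zero]
  obtain ⟨qX, hqX⟩ := cv_desc hπ.surj hRn hφ hφs hR.toHomOn le_rfl
    (fun x hx hx0 => hR.ker_le hφ hφne hx hx0)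
  obtain ⟨qY, hqY⟩ := cv_desc hπ.surj hBn hψ' hψs' hB.toHomOn le_rfl
    (fun x hx hx0 => hB.ker_le hψ' hψne hx hx0)
  obtain ⟨iX, hiX⟩ := cv_desc hπ.surj hR1n hθ hθs hφ hR1R (by
    intro x hx hx0
    apply hPL
    intro m
    obtain ⟨y, hy, rfl⟩ := hψs' m
    rw [hp x (hR1R hx) y hy, hθf x hx y hy, hx0]
    have h7 : mdd (0 + 0) (φB y) = mdd 0 (φB y) + mdd 0 (φB y) := wdgD_add_left _ _ _
    rw [add_zero] at h7
    exact left_eq_add.1 h7)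
  obtain ⟨iY, hiY⟩ := cv_desc hπ.surj hB1n hψ hψs hψ' hB1B (by
    intro y hy hy0
    apply hPR
    intro m
    obtain ⟨x, hx, rfl⟩ := hφs m
    rw [hp x hx y (hB1B hy), ← cv_swap hχ hx (hB1B hy), hψf y hy x hx, hy0]
    have h7 : mvv (0 + 0) (φR x) = mvv 0 (φR x) + mvv 0 (φR x) := wdg_add_left _ _ _
    rw [add_zero] at h7
    exact left_eq_add.1 h7)
  have hL2M : ∃ s : MV →ₗ[RG] Xb, ∀ v, qX (s v) = v := by
    refine h6 Xb Yb qX iX qY iY p ?_ ?_ ?_ ?_ hAdm.equiv ?_ ?_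
    · intro v
      obtain ⟨x, hx, rfl⟩ := hR.surj v
      exact ⟨φ x, hqX x hx⟩
    · intro m
      obtain ⟨x, hx, rfl⟩ := hφs m
      rw [hqX x hx]
      constructor
      · intro h
        exact ⟨θ x, hiX x ⟨hx, h⟩⟩
      · rintro ⟨η, hη⟩
        obtain ⟨w, hw, rfl⟩ := hθs η
        rw [hiX w hw] at hη
        rw [← hqX x hx, ← hη, hqX w (hR1R hw)]
        exact hw.2
    · intro v
      obtain ⟨x, hx, rfl⟩ := hB.surj v
      exact ⟨ψ' x, hqY x hx⟩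
    · intro m
      obtain ⟨x, hx, rfl⟩ := hψs' m
      rw [hqY x hx]
      constructor
      · intro h
        exact ⟨ψ x, hiY x ⟨hx, h⟩⟩
      · rintro ⟨η, hη⟩
        obtain ⟨w, hw, rfl⟩ := hψs η
        rw [hiY w hw] at hη
        rw [← hqY x hx, ← hη, hqY w (hB1B hw)]
        exact hw.2
    · intro η m
      obtain ⟨w, hw, rfl⟩ := hθs η
      obtain ⟨y, hy, rfl⟩ := hψs' m
      rw [hiX w hw, hqY y hy, hp w (hR1R hw) y hy, hθf w hw y hy]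
    · intro m v
      obtain ⟨w, hw, rfl⟩ := hψs v
      obtain ⟨x, hx, rfl⟩ := hφs m
      rw [hiY w hw, hqX x hx, hp x hx w (hB1B hw), ← cv_swap hχ hx (hB1B hw), hψf w hw x hx]
      exact wdg_comm _ _
  obtain ⟨s, hs⟩ := hL2M
  · -- contradiction
    let X0 : Subgroup G :=
      { carrier := {x | x ∈ R ∧ φ x ∈ LinearMap.range s}
        one_mem' := ⟨R.one_mem, by rw [hφ.map_one]; exact Submodule.zero_mem _⟩
        mul_mem' := by
          rintro x y ⟨hx, hx'⟩ ⟨hy, hy'⟩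
          exact ⟨R.mul_mem hx hy, by rw [hφ.mul x hx y hy]; exact Submodule.add_mem _ hx' hy'⟩
        inv_mem' := by
          rintro x ⟨hx, hx'⟩
          exact ⟨R.inv_mem hx, by rw [hφ.map_inv hx]; exact hx'⟩ }
    have hX0n : X0.Normal := by
      constructor
      rintro x ⟨hx, hx'⟩ g
      exact ⟨hRn.conj_mem x hx g, by rw [hφ.conj g x hx]; exact act_mem _ hx'⟩
    have hX0 : X0 = R := by
      obtain ⟨x, hx, hx0⟩ := hR.surj (![1, 0, 0, 0] : Fin 4 → ZMod 2)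
      obtain ⟨y, hy, hy0⟩ := hφs (s (φR x))
      refine hR.top X0 hX0n (fun z hz => hz.1) ⟨y, ⟨hy, by rw [hy0]; exact ⟨_, rfl⟩⟩, ?_⟩
      rw [← hqX y hy, hy0, hs, hx0]
      intro h9
      exact absurd (congrFun h9 0) (by decide)
    obtain ⟨x, hx, y, hy, hxy⟩ := hDne
    apply hxy
    have hx1 := hDR1 hx
    have hxX : x ∈ X0 := by rw [hX0]; exact hR1R hx1
    obtain ⟨v, hv⟩ := hxX.2
    have h7 : v = 0 := by
      rw [← hs v, hv, hqX x (hR1R hx1)]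
      exact hx1.2
    rw [h7, map_zero] at hv
    rw [← hp x (hR1R hx1) y hy, ← hv, map_zero]
    rfl

end

theorem bCV (h1 : S_COV) (h2 : S_TB) (h3 : S_STD2) (h4 : S_UQ) (h5 : S_PAIR) (h6 : S_L2M)
    (h7 : S_END) (h8 : S_SIM) : S_CV := by
  have _ := h7
  intro G _ _ π hπ
  rw [Subgroup.commutator_eq_bot_iff_le_centralizer]
  refine sSup_le ?_
  rintro R ⟨φR, hR⟩
  rw [← Subgroup.commutator_eq_bot_iff_le_centralizer, Subgroup.commutator_comm,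
    Subgroup.commutator_eq_bot_iff_le_centralizer]
  refine sSup_le ?_
  rintro B ⟨φB, hB⟩
  rw [← Subgroup.commutator_eq_bot_iff_le_centralizer, Subgroup.commutator_comm]
  exact cv_pair h1 h2 h3 h4 h5 h6 h8 hπ _ R B φR φB hR hB rfl

end Pool.Agent.A8
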