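import Pool.Agent.Helper7.A8.CV

/-!
# Block G17 of project A8: group version of the structure theorem for pairings

Statement by helper89; proof: helper7.
-/

set_option autoImplicit false

namespace Pool.Agent.A8

open Matrix
open scoped commutatorElement

section
variable {G : Type} [Group G] {π : G →* Gam}

/-- the image of a homomorphism on a normal subgroup, as a submodule -/
def mtgIm {M : Type} [AddCommGroup M] [Module RG M] (hπ : Function.Surjective π)
    {X : Subgroup G} (hX : X.Normal) {θ : G → M} (h : HomOn π X θ) : Submodule RG M :=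
  mkSub
    { carrier := {m | ∃ x ∈ X, θ x = m}
      zero_mem' := ⟨1, X.one_mem, h.map_one⟩
      add_mem' := by
        rintro _ _ ⟨x, hx, rfl⟩ ⟨y, hy, rfl⟩
        exact ⟨x * y, X.mul_mem hx hy, h.mul x hx y hy⟩
      neg_mem' := by
        rintro _ ⟨x, hx, rfl⟩
        exact ⟨x, hx, (neg_eq _).symm⟩ }
    (by
      rintro g _ ⟨x, hx, rfl⟩
      obtain ⟨k, rfl⟩ := hπ g
      exact ⟨k * x * k⁻¹, hX.conj_mem x hx k, h.conj k x hx⟩)

theorem mem_mtgIm {M : Type} [AddCommGroup M] [Module RG M] (hπ : Function.Surjective π)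
    {X : Subgroup G} (hX : X.Normal) {θ : G → M} (h : HomOn π X θ) (m : M) :
    m ∈ mtgIm hπ hX h ↔ ∃ x ∈ X, θ x = m := Iff.rfl

/-- heads of a quotient of a group generated by locals of type `a` and a subgroup mapping to 0 -/
theorem mtg_heads (a : Ty) (hπ : Cfg π) {X C : Subgroup G} (hX : X.Normal)
    (hgen : X ≤ Kt π a ⊔ C) (hKX : Kt π a ≤ X) (hCX : C ≤ X) {M : Type} [AddCommGroup M]
    [Module RG M] {φ : G → M} (hφ : HomOn π X φ) (hs : ∀ m, ∃ x ∈ X, φ x = m)
    (hC : ∀ c ∈ C, φ c = 0) : Heads a M := by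
  intro N hN
  have hsimple : IsSimpleModule RG (M ⧸ N) := isSimpleModule_iff_isCoatom.2 hN
  -- the composition with the quotient map
  have hθ : HomOn π X (fun x => N.mkQ (φ x)) := hφ.comp N.mkQ
  -- a local subgroup not mapping to zero
  obtain ⟨R, φR, hR, x₀, hx₀, hx₀'⟩ : ∃ (R : Subgroup G) (φR : G → Md a), Loc π R a φR ∧
      ∃ x ∈ R, N.mkQ (φ x) ≠ 0 := by
    by_contra hc
    push Not at hc
    have h1 : Kt π a ≤ hθ.kerG := by
      refine sSup_le ?_
      rintro R ⟨φR, hR⟩ x hx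
      exact ⟨hKX (hR.le_Kt hx), hc R φR hR x hx⟩
    have h2 : C ≤ hθ.kerG := by
      intro c hc'
      refine ⟨hCX hc', ?_⟩
      change N.mkQ (φ c) = 0
      rw [hC c hc', map_zero]
    have h3 : X ≤ hθ.kerG := hgen.trans (sup_le h1 h2)
    apply hN.1
    rw [eq_top_iff]
    intro m _
    obtain ⟨x, hx, rfl⟩ := hs m
    have h4 : N.mkQ (φ x) = 0 := (h3 hx).2
    rwa [Submodule.mkQ_apply, Submodule.Quotient.mk_eq_zero] at h4
  have hRX : R ≤ X := hR.le_Kt.trans hKX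
  have hθR : HomOn π R (fun x => N.mkQ (φ x)) := hθ.mono hRX
  have hne : ∃ x ∈ R, (fun x => N.mkQ (φ x)) x ≠ 0 := ⟨x₀, hx₀, hx₀'⟩
  have hker : ∀ x ∈ R, N.mkQ (φ x) = 0 → φR x = 0 := fun x hx hx0 => hR.ker_le hθR hne hx hx0
  -- surjectivity of the restriction to `R`
  have hsR : ∀ m : M ⧸ N, ∃ x ∈ R, N.mkQ (φ x) = m := by
    intro m
    rcases eq_bot_or_eq_top (mtgIm hπ.surj hR.normal hθR) with h1 | h1
    · exfalso
      have h2 : N.mkQ (φ x₀) ∈ mtgIm hπ.surj hR.normal hθR := ⟨x₀, hx₀, rfl⟩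
      rw [h1, Submodule.mem_bot] at h2
      exact hx₀' h2
    · have h2 : m ∈ mtgIm hπ.surj hR.normal hθR := by rw [h1]; trivial
      exact h2
  -- the kernel of `φR` is mapped to zero
  have hker' : ∀ x ∈ R, φR x = 0 → N.mkQ (φ x) = 0 := by
    have hR1n := hR.toHomOn.kerG_normal hR.normal
    have hθ1 : HomOn π hR.toHomOn.kerG (fun x => N.mkQ (φ x)) := hθR.mono hR.toHomOn.kerG_le
    rcases eq_bot_or_eq_top (mtgIm hπ.surj hR1n hθ1) with h1 | h1
    · intro x hx hx0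
      have h2 : N.mkQ (φ x) ∈ mtgIm hπ.surj hR1n hθ1 := ⟨x, ⟨hx, hx0⟩, rfl⟩
      rw [h1, Submodule.mem_bot] at h2
      exact h2
    · exfalso
      have hall : ∀ y ∈ R, φR y = 0 := by
        intro y hy
        have h2 : N.mkQ (φ y) ∈ mtgIm hπ.surj hR1n hθ1 := by rw [h1]; trivial
        obtain ⟨z, hz, hzy⟩ := h2
        have h3 := hker (y * z⁻¹) (R.mul_mem hy (R.inv_mem hz.1)) (by
          have h4 := hθR.map_mul_inv hy hz.1
          change N.mkQ (φ (y * z⁻¹)) = N.mkQ (φ y) + N.mkQ (φ z) at h4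
          change N.mkQ (φ z) = N.mkQ (φ y) at hzy
          rw [h4, hzy, add_self])
        rw [hR.toHomOn.map_mul_inv hy hz.1, hz.2, add_zero] at h3
        exact h3
      cases a with
      | v =>
        obtain ⟨y, hy, hy0⟩ := hR.surj (![1, 0, 0, 0] : Fin 4 → ZMod 2)
        have h9 := hall y hy
        rw [hy0] at h9
        exact absurd (congrFun h9 0) (by decide)
      | d =>
        obtain ⟨y, hy, hy0⟩ := hR.surj (![1, 0, 0, 0] : Fin 4 → ZMod 2)
        have h9 := hall y hy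
        rw [hy0] at h9
        exact absurd (congrFun h9 0) (by decide)
      | l =>
        obtain ⟨y, hy, hy0⟩ := hR.surj (![1, 0, 0, 0, 0, 0] : Fin 6 → ZMod 2)
        have h9 := hall y hy
        rw [hy0] at h9
        exact absurd (congrFun h9 0) (by decide)
  obtain ⟨q, hq⟩ := cv_desc (φ := fun x => N.mkQ (φ x)) (ψ := φR) hπ.surj hR.normal hθR hsR
    hR.toHomOn le_rfl hker
  refine ⟨q.comp N.mkQ, ?_, ?_⟩
  · intro m
    obtain ⟨x, hx, rfl⟩ := hR.surj m
    exact ⟨φ x, hq x hx⟩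
  · ext m
    rw [LinearMap.mem_ker, LinearMap.comp_apply]
    obtain ⟨x, hx, hxm⟩ := hsR (N.mkQ m)
    have hqx : q (N.mkQ m) = φR x := by rw [← hxm]; exact hq x hx
    rw [hqx]
    constructor
    · intro h
      have h2 := hker' x hx h
      rw [hxm, Submodule.mkQ_apply, Submodule.Quotient.mk_eq_zero] at h2
      exact h2
    · intro h
      apply hker x hx
      rw [hxm, Submodule.mkQ_apply, Submodule.Quotient.mk_eq_zero]
      exact h

/-- extension of a map defined on a submodule by zero, composed with a homomorphism -/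
theorem mtg_ext {a : Ty} {X X' : Subgroup G} {M : Type} [AddCommGroup M] [Module RG M] {φ : G → M}
    (hφ : HomOn π X φ) (hXX : X' ≤ X) (S : Submodule RG M) (hS : ∀ x ∈ X', φ x ∈ S)
    (f : S →ₗ[RG] Md a) :
    ∃ θ : G → Md a, HomOn π X' θ ∧ ∀ x (h : φ x ∈ S), θ x = f ⟨φ x, h⟩ := by
  classical
  refine ⟨fun x => if h : φ x ∈ S then f ⟨φ x, h⟩ else 0, ⟨?_, ?_⟩, ?_⟩
  · intro x hx y hy
    have h1 := hS x hx
    have h2 := hS y hy
    have h3 : φ (x * y) ∈ S := by
      rw [hφ.mul x (hXX hx) y (hXX hy)]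
      exact S.add_mem h1 h2
    rw [dif_pos h1, dif_pos h2, dif_pos h3, ← map_add]
    congr 1
    exact Subtype.ext (hφ.mul x (hXX hx) y (hXX hy))
  · intro g x hx
    have h1 := hS x hx
    have h3 : φ (g * x * g⁻¹) ∈ S := by
      rw [hφ.conj g x (hXX hx)]
      exact act_mem _ h1
    rw [dif_pos h1, dif_pos h3, ← map_act]
    congr 1
    exact Subtype.ext (hφ.conj g x (hXX hx))
  · intro x h
    exact dif_pos h

end

theorem bMTG (h1 : S_STR) (h2 : S_PAIR) (h3 : S_QM) (h4 : S_MT) (h5 : S_COV) : S_MTG := by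
  have _ := h5
  intro G _ _ π hπ
  have hs := h1 G π hπ
  have hVn := Kt_normal π .v
  have hLn := Kt_normal π .l
  have hDn := Kt_normal π .d
  have hCn : (CK π (Kt π .v)).Normal := CK_normal π hVn
  set C := CK π (Kt π .v) with hC
  set Y := Kt π .l ⊔ C with hY
  have hYn : Y.Normal := by
    rw [hY]
    infer_instance
  have hYK : Y ≤ π.ker := sup_le (Kt_le π _) (CK_le π _)
  have hVK : Kt π .v ≤ π.ker := Kt_le π _
  -- commutators with `C`
  have hcC : ∀ x ∈ Kt π .v, ∀ c ∈ C, ⁅x, c⁆ = 1 := by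
    intro x hx c hc
    rw [commutatorElement_eq_one_iff_mul_comm]
    exact (mem_CK.1 hc).1 x hx
  have hA : ⁅Kt π .v, Y⁆ = ⁅Kt π .v, Kt π .l⁆ := by
    refine le_antisymm ?_ (Subgroup.commutator_mono le_rfl le_sup_left)
    rw [Subgroup.commutator_le]
    intro x hx z hz
    obtain ⟨y, hy, c, hc, rfl⟩ := Subgroup.mem_sup_of_normal_right.1 hz
    have e : ⁅x, y * c⁆ = ⁅x, y⁆ * (y * ⁅x, c⁆ * y⁻¹) := by
      simp only [commutatorElement_def]
      group
    rw [e, hcC x hx c hc, mul_one, mul_inv_cancel, mul_one]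
    exact cv_mem hx hy
  have hAZ : ⁅Kt π .v, Y⁆ ≤ ZK π := by rw [hA]; exact hs.aZ
  have hAn : (⁅Kt π .v, Y⁆ : Subgroup G).Normal := cv_normal hVn hYn
  obtain ⟨Z, i1, i2, i3, χ, hχ, hZ15⟩ := h3 G π hπ ⁅Kt π .v, Y⁆ ⊥ hAn inferInstance bot_le
    (hAZ.trans (ZK_le π)) (fun x hx => by
      rw [Subgroup.mem_bot]
      exact hs.z2 x (hAZ hx)) (by
      rw [Subgroup.commutator_le]
      intro x hx k hk
      rw [Subgroup.mem_bot, commutatorElement_eq_one_iff_mul_comm]
      exact ((mem_ZK.1 (hAZ hx)).1 k hk).symm)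
  have hχh : HomOn π ⁅Kt π .v, Y⁆ χ := hχ.toHomOn
  -- elements commuting with `Kl` and with `C`
  have hKV : ∀ x ∈ Kt π .v, ∀ k ∈ π.ker, ∀ y ∈ Y, ⁅⁅k, x⁆, y⁆ = 1 := by
    intro x hx k hk y hy
    have hkx : ⁅k, x⁆ ∈ Kt π .v := by
      rw [commutatorElement_def]
      exact (Kt π .v).mul_mem (hVn.conj_mem x hx k) ((Kt π .v).inv_mem hx)
    -- `[K, Kv] ≤ J A`
    have hJA : ⁅k, x⁆ ∈ ⁅Kt π .v, Kt π .v⁆ ⊔ ⁅Kt π .v, Kt π .l⁆ := by
      have hJn : (⁅Kt π .v, Kt π .v⁆ : Subgroup G).Normal := cv_normal hVn hVn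
      have hAn' : (⁅Kt π .v, Kt π .l⁆ : Subgroup G).Normal := cv_normal hVn hLn
      have hTn : (⁅Kt π .v, Kt π .v⁆ ⊔ ⁅Kt π .v, Kt π .l⁆ : Subgroup G).Normal := inferInstance
      set T : Subgroup G := ⁅Kt π .v, Kt π .v⁆ ⊔ ⁅Kt π .v, Kt π .l⁆ with hT
      -- the set of `k` with `[k, x] ∈ T` for all `x ∈ Kv` is a subgroup
      let S : Subgroup G :=
        { carrier := {k | ∀ x ∈ Kt π .v, ⁅k, x⁆ ∈ T}
          one_mem' := by
            intro x _
            rw [commutatorElement_one_left]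
            exact T.one_mem
          mul_mem' := by
            intro a b ha hb x hx
            have e : ⁅a * b, x⁆ = (a * ⁅b, x⁆ * a⁻¹) * ⁅a, x⁆ := by
              simp only [commutatorElement_def]
              group
            rw [e]
            exact T.mul_mem (hTn.conj_mem _ (hb x hx) a) (ha x hx)
          inv_mem' := by
            intro a ha x hx
            have e : ⁅a⁻¹, x⁆ = a⁻¹ * ⁅a, x⁆⁻¹ * a⁻¹⁻¹ := by
              simp only [commutatorElement_def]
              group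
            rw [e]
            exact hTn.conj_mem _ (T.inv_mem (ha x hx)) a⁻¹ }
      have hSV : Kt π .v ≤ S := fun a ha x hx => by
        have : ⁅Kt π .v, Kt π .v⁆ ≤ T := le_sup_left
        exact this (cv_mem ha hx)
      have hSL : Kt π .l ≤ S := fun a ha x hx => by
        have h7 : ⁅Kt π .v, Kt π .l⁆ ≤ T := le_sup_right
        rw [← commutatorElement_inv]
        exact T.inv_mem (h7 (cv_mem hx ha))
      have hSD : Kt π .d ≤ S := fun a ha x hx => by
        have h7 : ⁅x, a⁆ ∈ ⁅Kt π .v, Kt π .d⁆ := cv_mem hx ha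
        rw [hs.cv, Subgroup.mem_bot] at h7
        rw [← commutatorElement_inv, h7, inv_one]
        exact T.one_mem
      have hSZ : ZK π ≤ S := fun a ha x hx => by
        have h7 : ⁅a, x⁆ = 1 := by
          rw [commutatorElement_eq_one_iff_mul_comm]
          exact ((mem_ZK.1 ha).1 x (hVK hx)).symm
        rw [h7]
        exact T.one_mem
      have hSK : π.ker ≤ S := by
        rw [hs.dec]
        exact sup_le (sup_le (sup_le hSV hSD) hSL) hSZ
      exact hSK hk x hx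
    have hcom : ∀ z ∈ ⁅Kt π .v, Kt π .v⁆ ⊔ ⁅Kt π .v, Kt π .l⁆, ∀ w ∈ Kt π .l, ⁅z, w⁆ = 1 := by
      have hJc : ⁅Kt π .v, Kt π .v⁆ ≤ Subgroup.centralizer (Kt π .l : Set G) := by
        rw [← Subgroup.commutator_eq_bot_iff_le_centralizer]
        exact hs.jl
      have hAc : ⁅Kt π .v, Kt π .l⁆ ≤ Subgroup.centralizer (Kt π .l : Set G) := by
        intro z hz
        rw [Subgroup.mem_centralizer_iff]
        intro w hw
        exact (mem_ZK.1 (hs.aZ hz)).1 w (Kt_le π _ hw)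
      intro z hz w hw
      have h7 := (sup_le hJc hAc) hz
      rw [Subgroup.mem_centralizer_iff] at h7
      rw [commutatorElement_eq_one_iff_mul_comm]
      exact (h7 w hw).symm
    obtain ⟨w, hw, c, hc, rfl⟩ := Subgroup.mem_sup_of_normal_right.1 hy
    have e : ⁅⁅k, x⁆, w * c⁆ = ⁅⁅k, x⁆, w⁆ * (w * ⁅⁅k, x⁆, c⁆ * w⁻¹) := by
      simp only [commutatorElement_def]
      group
    rw [e, hcC _ hkx c hc, hcom _ hJA w hw, mul_one, mul_inv_cancel, mul_one]
  have hK : ∀ x ∈ Kt π .v, ∀ y ∈ Y, ∀ k ∈ π.ker, χ ⁅k * x * k⁻¹, y⁆ = χ ⁅x, y⁆ := by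
    intro x hx y hy k hk
    have hkx : ⁅k, x⁆ ∈ Kt π .v := by
      rw [commutatorElement_def]
      exact (Kt π .v).mul_mem (hVn.conj_mem x hx k) ((Kt π .v).inv_mem hx)
    have ex : k * x * k⁻¹ = ⁅k, x⁆ * x := by rw [commutatorElement_def]; group
    rw [ex, cv_mul_left hVn hYn hVK hχh hkx hx hy, hKV x hx k hk y hy, hχh.map_one, zero_add]
  obtain ⟨Xb, Yb, i1', i2', i3', i4, i5, i6, φ, ψ, p, hφ, hφs, hψ, hψs, hp, hAdm, hPL, hPR,
    hX15, hY15⟩ := h2 G π hπ (Kt π .v) Y hVn hYn hVK hYK Z χ hχh hK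
  have hψC : ∀ c ∈ C, ψ c = 0 := by
    intro c hc
    apply hPR
    intro m
    obtain ⟨x, hx, rfl⟩ := hφs m
    have hcY : c ∈ Y := (le_sup_right : C ≤ Y) hc
    rw [hp x hx c hcY, hcC x hx c hc, hχh.map_one]
  have hHX : Heads .v Xb := mtg_heads .v hπ (C := ⊥) hVn (by rw [sup_bot_eq]) le_rfl bot_le hφ hφs
    (by
      intro c hc
      rw [Subgroup.mem_bot.1 hc, hφ.map_one])
  have hHY : Heads .l Yb := mtg_heads .l hπ (C := C) hYn le_rfl le_sup_left le_sup_right hψ hψs hψC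
  have hspan : ∀ N : Submodule RG Z, (∀ x y, p x y ∈ N) → N = ⊤ := by
    intro N hN
    rw [eq_top_iff]
    intro z _
    obtain ⟨w, hw, rfl⟩ := hχ.surj z
    let S : Subgroup G :=
      { carrier := {w | w ∈ ⁅Kt π .v, Y⁆ ∧ χ w ∈ N}
        one_mem' := ⟨Subgroup.one_mem _, by rw [hχh.map_one]; exact N.zero_mem⟩
        mul_mem' := by
          rintro a b ⟨ha, ha'⟩ ⟨hb, hb'⟩
          exact ⟨Subgroup.mul_mem _ ha hb, by rw [hχh.mul a ha b hb]; exact N.add_mem ha' hb'⟩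
        inv_mem' := by
          rintro a ⟨ha, ha'⟩
          exact ⟨Subgroup.inv_mem _ ha, by rw [hχh.map_inv ha]; exact ha'⟩ }
    have hS : ⁅Kt π .v, Y⁆ ≤ S := by
      rw [Subgroup.commutator_le]
      intro x hx y hy
      refine ⟨cv_mem hx hy, ?_⟩
      rw [← hp x hx y hy]
      exact hN _ _
    exact (hS hw).2
  obtain ⟨hg1, hg2, hg3⟩ := h4 Xb Yb Z hX15 hY15 hZ15 hHX hHY p hAdm hPL hPR hspan
  refine ⟨?_, ?_, ?_⟩
  · rw [eq_bot_iff, Subgroup.commutator_le]
    intro x hx y hy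
    have hxV := rjT_le π _ _ _ hx
    have hyY : y ∈ Y := (le_sup_left : Kt π .l ≤ Y) hy
    have hx0 : φ x = 0 := hg1 _ fun f => hx.2 _ (hφ.comp f) (by
      intro t ht
      rw [Subgroup.mem_bot.1 ht, hφ.map_one, map_zero])
    have h7 : χ ⁅x, y⁆ = 0 := by
      rw [← hp x hxV y hyY, hx0, map_zero]
      rfl
    exact (hχ.ker _ (cv_mem hxV hyY)).1 h7
  · intro x hx hx'
    rw [← hA] at hx hx'
    have hxA := rjT_le π _ _ _ hx
    have hmem : ∀ w ∈ rjT π .d ⁅Kt π .v, Y⁆ ⊥, χ w ∈ rj MD Z := by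
      intro w hw
      rw [mem_rj]
      intro f
      exact hw.2 _ (hχh.comp f) (by
        intro t ht
        rw [Subgroup.mem_bot.1 ht, hχh.map_one, map_zero])
    have h0 : (⟨χ x, hmem x hx⟩ : rj MD Z) = 0 := by
      apply hg3
      intro f
      obtain ⟨θ, hθ, hθ'⟩ := mtg_ext (a := .l) hχh (rjT_le π _ _ _) (rj MD Z) hmem f
      rw [← hθ' x (hmem x hx)]
      exact hx' θ hθ (by
        intro t ht
        rw [Subgroup.mem_bot.1 ht]
        exact hθ.map_one)
    exact (hχ.ker _ hxA).1 (congrArg Subtype.val h0)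
  · intro x hx hx'
    have hxY := rjT_le π _ _ _ hx
    have hmem : ∀ w ∈ rjT π .l Y C, ψ w ∈ rj ML Yb := by
      intro w hw
      rw [mem_rj]
      intro f
      exact hw.2 _ (hψ.comp f) (by
        intro t ht
        rw [hψC t ht, map_zero])
    have h0 : (⟨ψ x, hmem x hx⟩ : rj ML Yb) = 0 := by
      apply hg2
      intro f
      obtain ⟨θ, hθ, hθ'⟩ := mtg_ext (a := .v) hψ (rjT_le π _ _ _) (rj ML Yb) hmem f
      rw [← hθ' x (hmem x hx)]
      refine hx' θ hθ ?_
      intro t ht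
      have h9 : ψ t = 0 := hψC t ht
      have h10 : ψ t ∈ rj ML Yb := by rw [h9]; exact Submodule.zero_mem _
      rw [hθ' t h10]
      have h11 : (⟨ψ t, h10⟩ : rj ML Yb) = 0 := Subtype.ext h9
      rw [h11, map_zero]
    have h7 : ψ x = 0 := congrArg Subtype.val h0
    rw [hC, mem_CK]
    refine ⟨fun y hy => ?_, hYK hxY⟩
    have h9 : χ ⁅y, x⁆ = 0 := by rw [← hp y hy x hxY, h7, map_zero]
    have h10 := (hχ.ker _ (cv_mem hy hxY)).1 h9
    rw [Subgroup.mem_bot, commutatorElement_eq_one_iff_mul_comm] at h10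
    exact h10

end Pool.Agent.A8
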